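import Pool.Agent.W276.GE.Basic

set_option autoImplicit false

noncomputable section

namespace Pool.Agent.W405.GE

open Pool.Agent.W276.GE MvPolynomial

/-- exponent vector as a finitely supported function -/
def toF {n t : ℕ} (α : E n t) : Fin n →₀ ℕ := Finsupp.equivFunOnFinite.symm α.1

lemma toF_apply {n t : ℕ} (α : E n t) (i : Fin n) : toF α i = α.1 i := rfl

lemma toF_degree {n t : ℕ} (α : E n t) : (toF α).degree = t := by
  rw [Finsupp.degree_eq_sum]
  exact E_sum α

/-- the complex form with the given coefficients -/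
def pol {n d : ℕ} (g : E n d → ℂ) : MvPolynomial (Fin n) ℂ := ∑ α : E n d, monomial (toF α) (g α)

lemma pol_hom {n d : ℕ} (g : E n d → ℂ) : (pol g).IsHomogeneous d := by
  unfold pol
  refine IsHomogeneous.sum _ _ _ fun α _ => ?_
  exact isHomogeneous_monomial _ (toF_degree α)

lemma eval_pol {n d : ℕ} (g : E n d → ℤ) (x : Fin n → ℂ) :
    eval x (pol fun α => (g α : ℂ)) = ev g x := by
  unfold pol ev
  rw [map_sum]
  refine Finset.sum_congr rfl fun α _ => ?_
  rw [eval_monomial, Finsupp.prod_fintype _ _ (fun i => pow_zero _)]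
  rfl

lemma coeff_pol {n t : ℕ} (g : E n t → ℂ) (α : E n t) : coeff (toF α) (pol g) = g α := by
  classical
  unfold pol
  rw [coeff_sum, Finset.sum_eq_single α]
  · rw [coeff_monomial, if_pos rfl]
  · intro β _ hβ
    rw [coeff_monomial, if_neg]
    intro h
    apply hβ
    apply Subtype.ext
    funext i
    have := DFunLike.congr_fun h i
    rwa [toF_apply, toF_apply] at this
  · intro h
    exact absurd (Finset.mem_univ _) h

lemma sub_mem {n s t u : ℕ} (α : E n t) (β : E n s) (h : ∀ i, β.1 i ≤ α.1 i) (hu : t = u + s) :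
    (fun i => α.1 i - β.1 i) ∈ Finset.Nat.antidiagonalTuple n u := by
  rw [mem_E]
  have h1 : ∑ i, (α.1 i - β.1 i) + ∑ i, β.1 i = ∑ i, α.1 i := by
    rw [← Finset.sum_add_distrib]
    exact Finset.sum_congr rfl fun i _ => Nat.sub_add_cancel (h i)
  rw [E_sum, E_sum] at h1
  omega

/-- the key identity -/
lemma coeff_mul_pol {n d t : ℕ} (hdt : d ≤ t) (c : MvPolynomial (Fin n) ℂ) (g : E n d → ℤ)
    (α : E n t) :
    coeff (toF α) (c * pol fun β => (g β : ℂ)) =
      ∑ γ : E n (t - d), coeff (toF γ) c * (sh g γ α : ℂ) := by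
  classical
  have h1 : coeff (toF α) (c * pol fun β => (g β : ℂ)) =
      ∑ β ∈ Finset.univ.filter (fun β : E n d => ∀ i, β.1 i ≤ α.1 i),
        coeff (toF α - toF β) c * (g β : ℂ) := by
    unfold pol
    rw [Finset.mul_sum, coeff_sum, Finset.sum_filter]
    refine Finset.sum_congr rfl fun β _ => ?_
    rw [coeff_mul_monomial']
    by_cases hle : ∀ i, β.1 i ≤ α.1 i
    · have hle' : toF β ≤ toF α := hle
      rw [if_pos hle, if_pos hle']
    · have hle' : ¬ toF β ≤ toF α := hle
      rw [if_neg hle, if_neg hle']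
  have h2 : ∑ γ : E n (t - d), coeff (toF γ) c * (sh g γ α : ℂ) =
      ∑ γ ∈ Finset.univ.filter (fun γ : E n (t - d) => ∀ i, γ.1 i ≤ α.1 i),
        coeff (toF γ) c * (co g (fun i => α.1 i - γ.1 i) : ℂ) := by
    rw [Finset.sum_filter]
    refine Finset.sum_congr rfl fun γ _ => ?_
    unfold sh
    split_ifs
    · rfl
    · simp
  rw [h1, h2]
  refine Finset.sum_bij'
    (fun (β : E n d) hβ => (⟨fun i => α.1 i - β.1 i,
      sub_mem α β (Finset.mem_filter.mp hβ).2 (by omega)⟩ : E n (t - d)))
    (fun (γ : E n (t - d)) hγ => (⟨fun i => α.1 i - γ.1 i,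
      sub_mem α γ (Finset.mem_filter.mp hγ).2 (by omega)⟩ : E n d)) ?_ ?_ ?_ ?_ ?_
  · intro β hβ
    rw [Finset.mem_filter]
    exact ⟨Finset.mem_univ _, fun i => Nat.sub_le _ _⟩
  · intro γ hγ
    rw [Finset.mem_filter]
    exact ⟨Finset.mem_univ _, fun i => Nat.sub_le _ _⟩
  · intro β hβ
    have h := (Finset.mem_filter.mp hβ).2
    apply Subtype.ext
    funext i
    have := h i
    simp only
    omega
  · intro γ hγ
    have h := (Finset.mem_filter.mp hγ).2
    apply Subtype.ext
    funext i
    have := h i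
    simp only
    omega
  · intro β hβ
    have h := (Finset.mem_filter.mp hβ).2
    have e1 : (fun i => α.1 i - (α.1 i - β.1 i)) = β.1 := by
      funext i
      have := h i
      omega
    have e2 : co g (fun i => α.1 i - (α.1 i - β.1 i)) = g β := by
      rw [e1, co, dif_pos β.2]
    have e3 : toF α - toF β = toF (⟨fun i => α.1 i - β.1 i,
        sub_mem α β h (by omega)⟩ : E n (t - d)) := by
      ext i
      rfl
    simp only [e2, e3]

theorem span_of_mac (hmac : S_mac) : S_span := by
  intro n d hn hd F hF t ht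
  have hdt : d ≤ t := by
    have h1 : d - 1 ≤ n * (d - 1) := Nat.le_mul_of_pos_left _ (by omega)
    omega
  intro w
  have hmem := hmac n d hn hd (fun j => pol fun β => (F j β : ℂ)) (fun j => pol_hom _)
    (fun x hx => hF x fun i => by
      have := hx i
      rwa [eval_pol] at this) t ht (pol fun α => (w α : ℂ)) (pol_hom _)
  rw [Ideal.mem_span_range_iff_exists_fun] at hmem
  obtain ⟨c, hc⟩ := hmem
  refine ⟨fun j γ => (coeff (toF γ) (c j)).re, fun α => ?_⟩
  have h1 := congrArg (coeff (toF α)) hc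
  rw [coeff_pol, coeff_sum] at h1
  simp only [coeff_mul_pol hdt] at h1
  have h2 := congrArg Complex.re h1
  simp only [Complex.re_sum, Complex.ofReal_re, Complex.mul_re, Complex.intCast_re,
    Complex.intCast_im, mul_zero, sub_zero] at h2
  exact h2.symm

end Pool.Agent.W405.GE
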